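import Pool.Agent.Lib.MP_100a6c_lc.IfaceV

/-!
# The regular open algebra of a poset and the ultrafilters of a centered poset
-/

universe u

open Cardinal

namespace Pool.Agent.Lib.MP_100a6c_lc.H1

/-- The regular elements of a frame form a complete Boolean algebra. -/
noncomputable instance regularCBA (α : Type u) [Order.Frame α] :
    CompleteBooleanAlgebra (Heyting.Regular α) :=
  let L : CompleteLattice (Heyting.Regular α) := Heyting.Regular.gi.liftCompleteLattice
  { (inferInstance : BooleanAlgebra (Heyting.Regular α)) with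
    sSup := L.sSup
    isLUB_sSup := L.isLUB_sSup
    sInf := L.sInf
    isGLB_sInf := L.isGLB_sInf }

/-- The regular open algebra of a preorder. -/
abbrev RO (P : Type u) [Preorder P] : Type u := Heyting.Regular (LowerSet P)

lemma exists_mem_of_ne_bot {P : Type u} [Preorder P] {b : RO P} (hb : b ≠ ⊥) :
    ∃ p : P, p ∈ (b : LowerSet P) := by
  by_contra hcon
  push Not at hcon
  apply hb
  apply Heyting.Regular.coe_injective
  apply le_antisymm _ bot_le
  intro p hp
  exact absurd hp (hcon p)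

/-- every proper filter base extends to an ultrafilter -/
lemma exists_ult {B : Type u} [BooleanAlgebra B] (F : Set B) (htop : ⊤ ∈ F) (hbot : ⊥ ∉ F)
    (hinf : ∀ a ∈ F, ∀ b ∈ F, a ⊓ b ∈ F) (hup : ∀ a ∈ F, ∀ b, a ≤ b → b ∈ F) :
    ∃ U : Set B, IsUlt U ∧ F ⊆ U := by
  have hF : Order.IsPFilter F := by
    refine Order.IsPFilter.of_def ⟨⊤, htop⟩ ?_ (fun {a b} hab ha => hup a ha b hab)
    intro a ha b hb
    exact ⟨a ⊓ b, hinf a ha b hb, inf_le_left, inf_le_right⟩
  have hdis : Disjoint (hF.toPFilter : Set B) ((Order.Ideal.principal (⊥ : B)) : Set B) := by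
    rw [Set.disjoint_left]
    intro a ha ha'
    have h1 : a ≤ ⊥ := ha'
    have h2 : a = ⊥ := le_bot_iff.1 h1
    subst h2
    exact hbot ha
  obtain ⟨J, hJ, -, hFJ⟩ := DistribLattice.prime_ideal_of_disjoint_filter_ideal hdis
  refine ⟨{b | b ∉ J}, ⟨?_, ?_, ?_, ?_, ?_⟩, ?_⟩
  · intro h
    exact hJ.1.ne_univ (Set.eq_univ_of_forall fun x => J.lower le_top h)
  · intro h
    exact h (Order.Ideal.bot_mem J)
  · intro a ha b hb h
    rcases hJ.mem_or_mem h with h | h
    exacts [ha h, hb h]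
  · intro a ha b hab h
    exact ha (J.lower hab h)
  · intro a
    by_contra hcon
    push Not at hcon
    obtain ⟨h1, h2⟩ := hcon
    have h3 : a ∈ J := not_not.1 h1
    have h4 : aᶜ ∈ J := not_not.1 h2
    have h5 : a ⊔ aᶜ ∈ J := Order.Ideal.sup_mem h3 h4
    rw [sup_compl_eq_top] at h5
    exact hJ.1.ne_univ (Set.eq_univ_of_forall fun x => J.lower le_top h5)
  · intro a ha h
    exact Set.disjoint_left.1 hFJ ha h

/-- Ultrafilters of the regular open algebra of a centered preorder. -/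
theorem centered_ult (κ : ZFSet.{u}) (P : Type u) [Preorder P] [Nonempty P]
    (hP : Centered κ P) (K : Type u) (hK : #K = κ.card) :
    ∃ U : K → Set (RO P), (∀ k, IsUlt (U k)) ∧ ∀ b : RO P, b ≠ ⊥ → ∃ k, b ∈ U k := by
  classical
  obtain ⟨C, hcov, hdir⟩ := hP
  obtain ⟨e⟩ : Nonempty (K ≃ Shrink.{u} {ξ : ZFSet.{u} // ξ ∈ κ}) := Cardinal.eq.1 hK
  let f : K → {ξ : ZFSet.{u} // ξ ∈ κ} := fun k => (equivShrink _).symm (e k)
  have hf : Function.Surjective f := fun ξ => ⟨e.symm (equivShrink _ ξ), by simp [f]⟩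
  let F : {ξ : ZFSet.{u} // ξ ∈ κ} → Set (RO P) := fun ξ =>
    {b | b = ⊤ ∨ ∃ p ∈ C ξ, p ∈ (b : LowerSet P)}
  have hne : (⊥ : RO P) ≠ ⊤ := by
    intro h
    have h1 : ((⊥ : RO P) : LowerSet P) = ((⊤ : RO P) : LowerSet P) := by rw [h]
    obtain ⟨p⟩ := ‹Nonempty P›
    have h2 : p ∈ (⊤ : LowerSet P) := trivial
    have h3 : p ∈ (⊥ : LowerSet P) := by
      have : ((⊥ : RO P) : LowerSet P) = ⊥ := rfl
      rw [← this, h1]
      exact h2
    exact h3
  have hF : ∀ ξ, ∃ U : Set (RO P), IsUlt U ∧ F ξ ⊆ U := by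
    intro ξ
    apply exists_ult
    · exact Or.inl rfl
    · rintro (h | ⟨p, -, hp⟩)
      · exact hne h
      · exact hp
    · rintro a (rfl | ⟨p, hp, hpa⟩) b (rfl | ⟨q, hq, hqb⟩)
      · left; exact inf_top_eq _
      · right; exact ⟨q, hq, by rw [top_inf_eq]; exact hqb⟩
      · right; exact ⟨p, hp, by rw [inf_top_eq]; exact hpa⟩
      · right
        obtain ⟨r, hr, hrp, hrq⟩ := hdir ξ p hp q hq
        exact ⟨r, hr, (a : LowerSet P).lower hrp hpa, (b : LowerSet P).lower hrq hqb⟩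
    · rintro a (rfl | ⟨p, hp, hpa⟩) b hab
      · left; exact top_le_iff.1 hab
      · right; exact ⟨p, hp, hab hpa⟩
  choose U hU hFU using hF
  refine ⟨fun k => U (f k), fun k => hU _, fun b hb => ?_⟩
  obtain ⟨p, hp⟩ := exists_mem_of_ne_bot hb
  obtain ⟨ξ, hξ⟩ := hcov p
  obtain ⟨k, rfl⟩ := hf ξ
  exact ⟨k, hFU _ (Or.inr ⟨p, hξ, hp⟩)⟩

end Pool.Agent.Lib.MP_100a6c_lc.H1
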